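import Pool.Agent.Helper33.CP.AllBodies
import Pool.Agent.Helper47.ML3.Inn

/-!
# A lower bound for the lattice packing density of every convex body

For every convex body `K` in space
`max (3/10, (π²/16) Vol(K)/Vol(DK)) ≤ δ_L(K) ≤ δ_T(K) ≤ Vol(K)/Vol(DK)`, `DK = (K - K)/2`.

The second bound. Let `C = K - K`. For a direction `u` let `M` be the length of the longest chord
of `K` in the direction `u`, `N` the projection of `C` along `u`, and `H ⊆ N` the set of the points
over which the chord of `C` is longer than `M`. A planar lattice without points in `H` and with at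
most two pairs of primitive points in `N` lifts to a lattice of vertical period `M` without points
in the interior of `C`; the mean value theorem for primitive points gives such planar lattices of
every determinant larger than `(|N| + 2|H|)/π²`. The volume of the set of all pairs `(x, y)` with
`x, y, y - x ∈ C` is at most three times the volume of its part where `x` is the largest of the
three; in coordinates `x = s(a, b, 1)` this inequality gives a direction with
`M (|N| + 2|H|) ≤ 2 Vol(C)`.

The first bound. If a translate of `-K` lies in `sK`, then `Vol(K - K) ≤ (2 + 6s) Vol(K)`; this is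
enough for `s ≤ 12/5`. Otherwise, by Helly's theorem, there is a simplex `S ⊇ K` which `K` nearly
fills in all four corners, and the largest simplex `T ⊆ K` is not much smaller than `K`; then an
explicit lattice adapted to `S` or to `T` is dense enough.
-/

set_option autoImplicit false

namespace Pool.Agent.Helper47.AB.AllBodies

open MeasureTheory Metric Filter
open Pool.Agent.Helper69.MD (E3 IsConvexBody deltaL)
open scoped ENNReal Pointwise

/-- The translates `u + K`, `u ∈ S`, form a packing: their interiors are pairwise disjoint. -/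
def IsTPacking (K S : Set E3) : Prop :=
  ∀ u ∈ S, ∀ w ∈ S, u ≠ w → Disjoint (interior (u +ᵥ K)) (interior (w +ᵥ K))

/-- The density of the family of the translates `u + K`, `u ∈ S`: the limsup, as `r → ∞`, of
`(∑ Vol((u + K) ∩ B(r))) / Vol(B(r))`. -/
noncomputable def tDensity (K S : Set E3) : ℝ≥0∞ :=
  limsup (fun r : ℝ => (∑' u : S, volume (((u : E3) +ᵥ K) ∩ closedBall (0 : E3) r)) /
    volume (closedBall (0 : E3) r)) atTop

/-- `δ_T(K)`: the supremum of the densities of all packings by translates of `K`. -/
noncomputable def deltaT (K : Set E3) : ℝ≥0∞ :=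
  ⨆ (S : Set E3) (_ : IsTPacking K S), tDensity K S

/-- `m_L`: the infimum of `δ_L(K)` over all convex bodies `K`. -/
noncomputable def mL : ℝ≥0∞ := ⨅ (K : Set E3) (_ : IsConvexBody K), deltaL K

/-- `m_T`: the infimum of `δ_T(K)` over all convex bodies `K`. -/
noncomputable def mT : ℝ≥0∞ := ⨅ (K : Set E3) (_ : IsConvexBody K), deltaT K

/-- For every convex body `K`, with `DK = (K - K)/2`,
`max (3/10, (π²/16) Vol(K)/Vol(DK)) ≤ δ_L(K) ≤ δ_T(K) ≤ Vol(K)/Vol(DK)`; if a translate of `-K`
lies in `sK`, then `π²/(4(1 + 3s)) ≤ δ_L(K)`. For the minima, `3/10 ≤ m_L < 18/49`, `m_L ≤ m_T` and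
`(π²/16) m_T ≤ m_L`. If `δ_L(K) ≤ 18/49`, so in particular if `δ_L(K) = m_L`, then
`Vol(K) < (3/5) Vol(DK)` and no translate of `-K` lies in `(19/10)K`. -/
theorem result :
    (∀ K : Set E3, IsConvexBody K →
      max (3 / 10) (ENNReal.ofReal (Real.pi ^ 2 / 16) *
        (volume K / volume ((1 / 2 : ℝ) • (K - K)))) ≤ deltaL K ∧
      deltaL K ≤ deltaT K ∧
      deltaT K ≤ volume K / volume ((1 / 2 : ℝ) • (K - K))) ∧
    (∀ K : Set E3, IsConvexBody K → ∀ (s : ℝ) (x : E3), 0 ≤ s →
      (∀ y ∈ K, x - y ∈ s • K) →
      ENNReal.ofReal (Real.pi ^ 2 / (4 * (1 + 3 * s))) ≤ deltaL K) ∧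
    (3 / 10 ≤ mL ∧ mL < 18 / 49 ∧ mL ≤ mT ∧
      ENNReal.ofReal (Real.pi ^ 2 / 16) * mT ≤ mL) ∧
    (∀ K : Set E3, IsConvexBody K → deltaL K ≤ 18 / 49 →
      volume K < 3 / 5 * volume ((1 / 2 : ℝ) • (K - K)) ∧
      ∀ x : E3, ∃ y ∈ K, x - y ∉ (19 / 10 : ℝ) • K) :=
  Pool.Agent.Helper33.CP.all_of fun hK => Pool.Agent.Helper47.ML3.ten3 hK

end Pool.Agent.Helper47.AB.AllBodies
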